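import Pool.Agent.helper64.OT.SpecI

set_option autoImplicit false

/-! # Row GCL of project OT -/

namespace Pool.Agent.OL

open Finset Pool.Agent.OT Pool.Agent.SPI Pool.Agent.helper85.PG
open scoped Pointwise

theorem GCL : GCL_stmt := by
  intro p _ h J hh
  have hp : 0 < p := (Fact.out : p.Prime).pos
  constructor
  · intro x hx y hy
    unfold CU at hx ⊢
    rw [mem_filter] at hx ⊢
    refine ⟨mem_univ _, ?_⟩
    have hxv : x.val < p := ZMod.val_lt x
    have hval : (x + (y : ZMod p)).val = (x.val + y) % p := by
      rw [ZMod.val_add, ZMod.val_natCast, Nat.add_mod_mod]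
    rw [hval]
    unfold J2
    rw [mem_insert, mem_union, mem_image]
    by_cases hc : x.val + y < p
    · rw [Nat.mod_eq_of_lt hc]
      right
      have h1 : x.val / h ≤ (x.val + y) / h := Nat.div_le_div_right (Nat.le_add_right _ _)
      have h2 : (x.val + y) / h < x.val / h + 2 := by
        rw [Nat.div_lt_iff_lt_mul hh]
        have h3 := Nat.lt_div_mul_add hh (a := x.val)
        have h4 : (x.val / h + 2) * h = x.val / h * h + h + h := by ring
        omega
      by_cases h5 : (x.val + y) / h = x.val / h
      · left
        rw [h5]
        exact hx.2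
      · right
        refine ⟨x.val / h, hx.2, ?_⟩
        omega
    · left
      have h1 : (x.val + y) % p ≤ x.val + y - p := by
        rw [Nat.mod_eq_sub_mod (by omega)]
        exact Nat.mod_le _ _
      exact Nat.div_eq_of_lt (by omega)
  · have h1 : (CU h J : Finset (ZMod p)) ⊆ J.biUnion fun j => (range h).image fun r => ((j * h + r : ℕ) : ZMod p) := by
      intro x hx
      unfold CU at hx
      rw [mem_filter] at hx
      rw [mem_biUnion]
      refine ⟨x.val / h, hx.2, ?_⟩
      rw [mem_image]
      refine ⟨x.val % h, mem_range.2 (Nat.mod_lt _ hh), ?_⟩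
      have h2 : x.val / h * h + x.val % h = x.val := by
        rw [mul_comm]
        exact Nat.div_add_mod _ _
      rw [h2, ZMod.natCast_zmod_val]
    refine (card_le_card h1).trans ?_
    rw [mul_comm]
    refine card_biUnion_le_card_mul _ _ _ fun j _ => ?_
    exact card_image_le.trans (by rw [card_range])

end Pool.Agent.OL
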